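import Pool.Agent.U243.DB.Main
import Pool.Agent.U243.DB.Parts

/-!
# The sets for which the d-bar derivative of the indicator function is bounded by a Hölder norm

A Borel set `Ω` in the plane is `α`-admissible if `|⟨∂χ_Ω/∂z̄, f⟩| ≤ C ‖f‖` for all smooth functions `f`
with compact support, with the norm of `Lip α = B^α_{∞,∞}` defined by differences of order `k > α`
(`IsAdmissible`).

**Theorem** (the answer to the question, for all `α > 0`). Let `η` be any even smooth function with
compact support and integral one, let `D_s = χ_Ω * η_s`, `η_s(z) = s⁻² η(z/s)`, be the local density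
of `Ω` at the scale `s` (`density`), and `Var(s) = ∫ |∇ D_s| dA` its total variation (`variation`). Then
`Ω` is `α`-admissible if and only if

  `∫_0^1 s ^ (α - 1) Var(s) ds < ∞`.

**If `0 < α < 1`, then `Ω` is `α`-admissible if and only if its local fractional perimeter of order
`1 - α` is finite**:

  `∫_{z ∈ Ω} ∫_{w ∉ Ω, |z - w| < 1} |z - w| ^ (α - 3) dA(w) dA(z) < ∞`.

For example a set of finite perimeter has a bounded `Var(s)`, and `Var(s) ≤ C area(Ω)/s`, which gives the
two cases known before; the total variation of the density at the scale `s` is the exact measure of the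
complexity of `Ω` which is needed.

The proof. Let `V(s)` be the `L¹` norm of `(∂χ_Ω/∂z̄) * ψ_s` for a smooth compactly supported `ψ`. If `Ω`
is admissible, test with the functions `f = ∑_{n < N} 2^{-nα} g_n * ψ_{s_n}`, `s_n = t 2^{-n}`, where
`g_n` is the sign of the convolution on a large disc: the norm of `f` in `Lip α` is bounded, and
`⟨∂χ_Ω/∂z̄, f⟩` is the sum of the `2^{-nα} V(s_n)`; integrate over `t`. Conversely let
`A_s f = ∑_j (-1)^j C(k, j+1) f * η_{(j+1)s}`, so that `f - A_s f` is the mean of the differences of order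
`k` of `f` and is `O(s ^ α)`; write `f` as `A_{s_0}² f + ∑ (A_{s_{n+1}} + A_{s_n})(A_{s_{n+1}} - A_{s_n}) f`
and move the first operator to `∂χ_Ω/∂z̄`. For `α < 1` and radial `η` the identity
`s ∂η_s/∂s = - 2 (∂ψ/∂z̄)_s`, `ψ(z) = z̄ η(z)`, gives `‖χ_Ω - D_s‖₁ ≤ 2 ∫_0^s V(r) dr`, so the `L¹` modulus of
continuity of `χ_Ω` is bounded by the functions `V`.

helper243; parts of the proof by helpers 261, 324, 394, 736 and 875.
-/

set_option autoImplicit false

open MeasureTheory Set
open scoped ENNReal NNReal ContDiff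

namespace Pool.Agent.Results.MP_d3add2_an.AdmissibleSets

open Pool.Agent.U243.DB

/-- **Characterisation of the `α`-admissible sets, for all `α > 0`.** -/

theorem result (α : ℝ) (hα : 0 < α) (k : ℕ) (hk : α < k) (Ω : Set ℂ) (hΩ : MeasurableSet Ω) :
    (∀ η : ℂ → ℝ, IsMollifier η →
      (IsAdmissible α k Ω ↔
        ∫⁻ s in Ioo (0 : ℝ) 1, ENNReal.ofReal (s ^ (α - 1)) * variation η Ω s < ⊤)) ∧
    (α < 1 → (IsAdmissible α k Ω ↔ fractionalPerimeter α Ω < ⊤)) :=
  ⟨fun _ hη => variation_iff t_DIFF t_SUM t_DYAD t_PAIR t_DBSC t_SCALE t_VARV hα hk hΩ hη,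
    fun hα1 => perimeter_iff t_DIFF t_SUM t_DYAD t_PAIR t_DBSC t_SCALE t_VARV t_EXRAD u_APPROX t_MODUL
      t_PERIM t_FRAC1 hα hα1 hk hΩ⟩

end Pool.Agent.Results.MP_d3add2_an.AdmissibleSets
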